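import Pool.Agent.Q211.SM.Main

/-!
# Dominating systems do not give `𝐃_λ^λ ≼_T 𝓢𝓝`

The Cantor space `CS`, the strong measure zero ideal `SN`, the Yorioka ideals `Yor f`, `Tukey`,
directed and dominating systems, the hypotheses of Q1 (`Hypotheses κ S i₀`) and its conclusion
(`Conclusion κ`) are defined in `Pool.Agent.Q211.SM.Def`; `Idx κ` is the cardinal `κ`.
-/

namespace Pool.Agent.Results.MP_7819b7_lc.NoTukeyReduction

open Cardinal Set Filter Pool.Agent.Q211.SM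

/-- * If `𝔡 = ℵ₁`, then there is a directed partial order `S` with a minimum and without maximum
  which satisfies, with `λ = ℵ₁`, the conditions (i), (ii) and (iii) of Q1.
* If moreover unions of `ℵ₁` strong measure zero sets have strong measure zero, then
  `𝐃_λ^λ ≼_T 𝓢𝓝` fails for `λ = ℵ₁`, so that the implication of Q1 fails. -/
theorem result (hd : ∃ g : Idx ℵ₁ → ℕ → ℕ, ∀ h : ℕ → ℕ, ∃ γ, ∀ᶠ n in atTop, h n ≤ g γ n) :
    (∃ (S : Type) (_ : PartialOrder S) (i₀ : S), Hypotheses ℵ₁ S i₀) ∧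
    ((∀ F : Idx ℵ₁ → Set CS, (∀ α, F α ∈ SN) → (⋃ α, F α) ∈ SN) →
      ¬ ∀ (κ : Cardinal.{0}) (S : Type) (_ : PartialOrder S) (i₀ : S), ℵ₀ ≤ κ →
        Hypotheses κ S i₀ → Conclusion κ) := by
  obtain ⟨g, hg⟩ := hd
  refine ⟨hypotheses hg, fun hadd hcon => ?_⟩
  obtain ⟨S, hS, i₀, h⟩ := hypotheses hg
  exact not_conclusion hadd (hcon ℵ₁ S hS i₀ (aleph0_le_aleph 1) h)

end Pool.Agent.Results.MP_7819b7_lc.NoTukeyReduction
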